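import Pool.Agent.T9h41.NK.Plane

/-!
# Project NK, piece EDGE: the other end of an edge of a 2-face
-/

set_option autoImplicit false

open Set
open scoped RealInnerProductSpace

namespace Pool.Agent.T9h41.NK

open Pool.Agent.T9h98.DC Pool.Agent.T9h44.NK Pool.Agent.T9h98.NK

/-- `S_TWO` for two given neighbours of `v` in `T` -/
theorem two_at (hTWO : S_TWO) {D : ℕ} {P T : Set (E (D + 1))} {v w y : E (D + 1)}
    (hP : IsPolytope P) (hvx : Vx P v) (hT : IsFace P T) (hdT : dm T = 2) (hvT : v ∈ T)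
    (hwT : w ∈ T) (hyT : y ∈ T) (hvw : Adj P v w) (hvy : Adj P v y) (hwy : w ≠ y) :
    LinearIndependent ℝ ![w - v, y - v] ∧ (∀ u, Adj P v u → u ∈ T → u = w ∨ u = y) ∧
      (∀ x ∈ T, ∃ α β : ℝ, 0 ≤ α ∧ 0 ≤ β ∧ x - v = α • (w - v) + β • (y - v)) ∧
      (∀ x ∈ T, ∀ α : ℝ, x - v = α • (w - v) → x ∈ segment ℝ v w) := by
  obtain ⟨y', z', hne, -, -, -, -, hli, hnb, hcone, hz, hy⟩ := hTWO D P T v hP hvx hT hdT hvT
  rcases hnb w hvw hwT with h1 | h1
  · have h2 : y = z' := by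
      rcases hnb y hvy hyT with h2 | h2
      · exact absurd (h1.trans h2.symm) hwy
      · exact h2
    rw [h1, h2]
    exact ⟨hli, hnb, hcone, hy⟩
  · have h2 : y = y' := by
      rcases hnb y hvy hyT with h2 | h2
      · exact h2
      · exact absurd (h1.trans h2.symm) hwy
    rw [h1, h2]
    refine ⟨?_, fun u hu huT => (hnb u hu huT).symm, fun x hx => ?_, hz⟩
    · rw [LinearIndependent.pair_iff] at hli ⊢
      intro s t hst
      have := hli t s ((add_comm (t • (y' - v)) (s • (z' - v))).trans hst)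
      exact ⟨this.2, this.1⟩
    · obtain ⟨α, β, hα, hβ, h3⟩ := hcone x hx
      exact ⟨β, α, hβ, hα, h3.trans (add_comm (α • (y' - v)) (β • (z' - v)))⟩

theorem edge (hFA : S_FACES) (hTWO : S_TWO) : S_EDGE := by
  intro D P hP v w y hcor
  obtain ⟨hvw, hvy, hwy, T, hT, hdT, hvT, hwT, hyT⟩ := hcor
  obtain ⟨-, -, -, -, -, -, -, -, fa9, fa10⟩ := hFA (D + 1) P hP.1
  obtain ⟨hvx, hwx, hwv, -⟩ := fa9 v w hvw
  obtain ⟨-, -, hc1, hl1⟩ := two_at hTWO hP hvx hT hdT hvT hwT hyT hvw hvy hwy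
  -- the other neighbour of `w` in `T`
  obtain ⟨z, hwz, hvz, hzT⟩ : ∃ z, Adj P w z ∧ v ≠ z ∧ z ∈ T := by
    obtain ⟨y', z', hne, hy', hz', hyT', hzT', -, hnb, -⟩ := hTWO D P T w hP hwx hT hdT hwT
    rcases hnb v hwv hvT with h1 | h1
    · exact ⟨z', hz', fun h => hne (h1.symm.trans h), hzT'⟩
    · exact ⟨y', hy', fun h => hne (h.symm.trans h1), hyT'⟩
  obtain ⟨-, hnb2, -, -⟩ := two_at hTWO hP hwx hT hdT hwT hvT hzT hwv hwz hvz
  refine ⟨z, ⟨hwv, hwz, hvz, T, hT, hdT, hwT, hvT, hzT⟩, ?_, ?_⟩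
  · obtain ⟨α, β, hα, hβ, h3⟩ := hc1 z hzT
    refine ⟨α, β, hα, lt_of_le_of_ne hβ ?_, h3⟩
    intro h0
    rw [← h0, zero_smul, add_zero] at h3
    have h4 := hl1 z hzT α h3
    have hzx : Vx P z := (fa9 w z hwz).2.1
    rcases fa10 v w hvw z hzx h4 with h5 | h5
    · exact hvz h5.symm
    · exact hwz.1 h5.symm
  · rintro u ⟨-, hwu, hzu, -⟩ ⟨a, b, hab⟩
    have huP : u ∈ P := hwu.2.2.subset (right_mem_segment ℝ w u)
    have huT : u ∈ T := mem_of_plane hT hvT hwT hyT huP hab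
    rcases hnb2 u hwu huT with h5 | h5
    · exact h5
    · exact absurd h5.symm hzu

end Pool.Agent.T9h41.NK
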