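import Pool.Agent.T9h98.NK.SpecS

/-!
# Project NK, piece PLANE: the points of a polytope in the plane of a corner
-/

set_option autoImplicit false

open Set
open scoped RealInnerProductSpace

namespace Pool.Agent.T9h41.NK

open Pool.Agent.T9h98.DC Pool.Agent.T9h44.NK Pool.Agent.T9h98.NK

/-- a face contains the points of `P` in the planes spanned by three of its points -/
theorem mem_of_plane {d : ℕ} {P F : Set (E d)} (hF : IsFace P F) {v p q u : E d} {a b : ℝ}
    (hv : v ∈ F) (hp : p ∈ F) (hq : q ∈ F) (hu : u ∈ P)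
    (h : u - v = a • (p - v) + b • (q - v)) : u ∈ F := by
  obtain ⟨l, hl⟩ := hF.2 hF.1
  rw [hl] at hv hp hq ⊢
  have h1 : l p = l v := le_antisymm (hv.2 p hp.1) (hp.2 v hv.1)
  have h1' : l q = l v := le_antisymm (hv.2 q hq.1) (hq.2 v hv.1)
  have h2 : l u = l v := by
    have h3 : l (u - v) = l (a • (p - v) + b • (q - v)) := by rw [h]
    rw [map_sub, map_add, map_smul, map_smul, map_sub, map_sub, h1, h1', sub_self, smul_zero,
      smul_zero, add_zero] at h3
    linarith
  exact ⟨hu, fun y hy => by rw [h2]; exact hv.2 y hy⟩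

theorem coef {d : ℕ} {x y : E d} (hli : LinearIndependent ℝ ![x, y]) {a b α β : ℝ}
    (h : a • x + b • y = α • x + β • y) : a = α ∧ b = β := by
  rw [LinearIndependent.pair_iff] at hli
  have h1 : (a - α) • x + (b - β) • y = 0 := by
    rw [sub_smul, sub_smul]
    have : a • x - α • x + (b • y - β • y) = (a • x + b • y) - (α • x + β • y) := by abel
    rw [this, h, sub_self]
  obtain ⟨h2, h3⟩ := hli _ _ h1
  exact ⟨by linarith, by linarith⟩

theorem plane (hFA : S_FACES) (hTWO : S_TWO) : S_PLANE := by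
  intro D P hP v w y hcor
  obtain ⟨hvw, hvy, hwy, T, hT, hdT, hvT, hwT, hyT⟩ := hcor
  obtain ⟨-, -, -, -, -, -, -, -, fa9, -⟩ := hFA (D + 1) P hP.1
  have hvx : Vx P v := (fa9 v w hvw).1
  obtain ⟨y', z', hne, -, -, -, -, hli, hnb, hcone, -, -⟩ := hTWO D P T v hP hvx hT hdT hvT
  have huT : ∀ u ∈ P, ∀ a b : ℝ, u - v = a • (w - v) + b • (y - v) → u ∈ T := fun u hu a b h =>
    mem_of_plane hT hvT hwT hyT hu h
  rcases hnb w hvw hwT with h1 | h1
  · have h2 : y = z' := by
      rcases hnb y hvy hyT with h2 | h2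
      · exact absurd (h1.trans h2.symm) hwy
      · exact h2
    rw [h1, h2]
    rw [h1, h2] at huT
    refine ⟨hli, fun u hu a b h => ?_⟩
    obtain ⟨α, β, hα, hβ, h3⟩ := hcone u (huT u hu a b h)
    obtain ⟨h4, h5⟩ := coef hli (h.symm.trans h3)
    exact ⟨h4 ▸ hα, h5 ▸ hβ⟩
  · have h2 : y = y' := by
      rcases hnb y hvy hyT with h2 | h2
      · exact h2
      · exact absurd (h1.trans h2.symm) hwy
    rw [h1, h2]
    rw [h1, h2] at huT
    have hli' : LinearIndependent ℝ ![z' - v, y' - v] := by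
      rw [LinearIndependent.pair_iff] at hli ⊢
      intro s t hst
      have := hli t s ((add_comm (t • (y' - v)) (s • (z' - v))).trans hst)
      exact ⟨this.2, this.1⟩
    refine ⟨hli', fun u hu a b h => ?_⟩
    obtain ⟨α, β, hα, hβ, h3⟩ := hcone u (huT u hu a b h)
    obtain ⟨h4, h5⟩ := coef hli' (h.symm.trans (h3.trans (add_comm (α • (y' - v)) (β • (z' - v)))))
    exact ⟨h4 ▸ hβ, h5 ▸ hα⟩

end Pool.Agent.T9h41.NK
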