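import Pool.Agent.T9h44.NK.SpecA

/-!
# Project NK, piece TWO: 2-faces at a vertex
-/

set_option autoImplicit false

open Set
open scoped RealInnerProductSpace

namespace Pool.Agent.T9h41.NK

open Pool.Agent.T9h98.DC Pool.Agent.T9h44.NK

/-- a face which contains `v` and `p` contains all points of `P` on the line through them -/
theorem mem_of_line {d : ℕ} {P F : Set (E d)} (hF : IsFace P F) {v p q : E d} {c : ℝ}
    (hv : v ∈ F) (hp : p ∈ F) (hq : q ∈ P) (h : q - v = c • (p - v)) : q ∈ F := by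
  obtain ⟨l, hl⟩ := hF.2 hF.1
  rw [hl] at hv hp ⊢
  have h1 : l p = l v := le_antisymm (hv.2 p hp.1) (hp.2 v hv.1)
  have h2 : l q = l v := by
    have h3 : l (q - v) = l (c • (p - v)) := by rw [h]
    rw [map_sub, map_smul, map_sub, h1, sub_self, smul_zero] at h3
    linarith
  exact ⟨hq, fun y hy => by rw [h2]; exact hv.2 y hy⟩

theorem pres_bot {d : ℕ} (P : Set (E d)) : Pres (⊥ : Subgroup (E d ≃ₗᵢ[ℝ] E d)) P := by
  intro h hh
  rw [Subgroup.mem_bot] at hh
  subst hh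
  ext x
  simp

theorem two (hFA : S_FACES) (hVF : S_VF) (hINV : S_INV) (hIO : S_IOTA) (hNB : S_NB) : S_TWO := by
  intro d P T v hP hv hT hdT hvT
  have hTP : T ⊆ P := hT.2.subset
  have hTne : T ≠ {v} := by
    intro h
    have h0 : dm ({v} : Set (E (d + 1))) = 0 := by
      unfold dm
      rw [vectorSpan_singleton]
      exact finrank_bot ℝ _
    rw [h, h0] at hdT
    omega
  have hex : ∃ y ∈ P, y ≠ v := by
    by_contra hcon
    push Not at hcon
    apply hTne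
    exact subset_antisymm (fun x hx => hcon x (hTP hx)) (singleton_subset_iff.2 hvT)
  obtain ⟨n, hn, hsup, -⟩ := hINV (d + 1) P v ⊥ hP.1 hv hex (pres_bot P)
  obtain ⟨ι, hort, hsurj⟩ := hIO d n hn
  obtain ⟨hfP, hF1, -, -⟩ := hVF d P v n ι hP hv hsup hn hort
  obtain ⟨nb1, nb2, nb3, -⟩ := hNB d P v n ι hP hv hsup hn hort
  obtain ⟨hfT, hdfT⟩ := hF1 T hT hvT hTne
  have hd1 : dm (fig v n ι T) = 1 := by omega
  obtain ⟨-, -, -, -, -, -, -, fa8, fa9, fa10⟩ := hFA d (fig v n ι P) hfP.1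
  obtain ⟨x, x', hadj, hseg⟩ := fa8 _ hfT hd1
  obtain ⟨hvx, hvx', -, -⟩ := fa9 x x' hadj
  obtain ⟨y, hy, ty, hty, hyx⟩ := nb2 x hvx
  obtain ⟨z, hz, tz, htz, hzx⟩ := nb2 x' hvx'
  have hyP : y ∈ P := (hy.2.2.subset) (right_mem_segment ℝ v y)
  have hzP : z ∈ P := (hz.2.2.subset) (right_mem_segment ℝ v z)
  have hmem : ∀ (w : E (d + 1)) (ξ : E d) (t : ℝ), 0 < t → w - v = t • (n + ι ξ) → w ∈ P →
      (w ∈ T ↔ ξ ∈ segment ℝ x x') := by
    intro w ξ t ht hw hwP
    rw [← hseg]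
    constructor
    · intro hwT
      refine ⟨t, ht, ?_⟩
      rw [← hw, add_sub_cancel]
      exact hwT
    · rintro ⟨s, hs, hsT⟩
      refine mem_of_line hT (c := t / s) hvT hsT hwP ?_
      rw [add_sub_cancel_left, smul_smul, div_mul_cancel₀ _ hs.ne', hw]
  have hyT : y ∈ T := (hmem y x ty hty hyx hyP).2 (left_mem_segment ℝ x x')
  have hzT : z ∈ T := (hmem z x' tz htz hzx hzP).2 (right_mem_segment ℝ x x')
  have hnn : 0 < ⟪n, n⟫ := real_inner_self_pos.2 hn
  refine ⟨y, z, ?_, hy, hz, hyT, hzT, ?_, ?_, ?_, ?_, ?_⟩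
  · intro hyz
    exact hadj.1 ((nb3 y z x x' hy hz ⟨ty, hty, hyx⟩ ⟨tz, htz, hzx⟩).2 hyz)
  · rw [LinearIndependent.pair_iff]
    intro a b hab
    rw [hyx, hzx, smul_smul, smul_smul] at hab
    have h1 : ⟪n, (a * ty) • (n + ι x) + (b * tz) • (n + ι x')⟫ = 0 := by
      rw [hab, inner_zero_right]
    rw [inner_add_right, real_inner_smul_right, real_inner_smul_right, inner_add_right,
      inner_add_right, hort x, hort x', add_zero, ← add_mul] at h1
    have h2 : a * ty + b * tz = 0 := (mul_eq_zero.1 h1).resolve_right hnn.ne'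
    have h3 : b * tz = -(a * ty) := by linarith
    rw [h3, neg_smul, ← sub_eq_add_neg, ← smul_sub, add_sub_add_left_eq_sub] at hab
    rcases smul_eq_zero.1 hab with h4 | h4
    · have ha : a = 0 := (mul_eq_zero.1 h4).resolve_right hty.ne'
      refine ⟨ha, ?_⟩
      rw [ha, zero_mul, zero_add] at h2
      exact (mul_eq_zero.1 h2).resolve_right htz.ne'
    · exact absurd (ι.injective (sub_eq_zero.1 h4)) hadj.1
  · intro w hw hwT
    obtain ⟨ξ, hξ, t, ht, hwξ⟩ := nb1 w hw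
    have h1 := (hmem w ξ t ht hwξ (hTP hwT)).1 hwT
    rcases fa10 x x' hadj ξ hξ h1 with h2 | h2
    · left
      exact (nb3 w y ξ x hw hy ⟨t, ht, hwξ⟩ ⟨ty, hty, hyx⟩).1 h2
    · right
      exact (nb3 w z ξ x' hw hz ⟨t, ht, hwξ⟩ ⟨tz, htz, hzx⟩).1 h2
  · intro x₀ hx₀
    by_cases h0 : x₀ = v
    · exact ⟨0, 0, le_rfl, le_rfl, by rw [h0]; simp⟩
    · have h1 : 0 < ⟪x₀ - v, n⟫ := hsup x₀ (hTP hx₀) h0
      set t : ℝ := ⟪x₀ - v, n⟫ / ⟪n, n⟫ with ht
      have htp : 0 < t := div_pos h1 hnn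
      have h2 : ⟪n, t⁻¹ • (x₀ - v - t • n)⟫ = 0 := by
        rw [real_inner_smul_right, inner_sub_right, real_inner_smul_right, ht,
          div_mul_cancel₀ _ hnn.ne', real_inner_comm, sub_self, mul_zero]
      obtain ⟨ξ, hξ⟩ := hsurj _ h2
      have h3 : x₀ - v = t • (n + ι ξ) := by
        rw [hξ, smul_add, smul_smul, mul_inv_cancel₀ htp.ne', one_smul]
        abel
      obtain ⟨a, b, ha, hb, hab, hξ2⟩ := (hmem x₀ ξ t htp h3 (hTP hx₀)).1 hx₀
      refine ⟨t * a / ty, t * b / tz, by positivity, by positivity, ?_⟩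
      rw [hyx, hzx, smul_smul, smul_smul, div_mul_cancel₀ _ hty.ne', div_mul_cancel₀ _ htz.ne', h3,
        ← hξ2, map_add, map_smul, map_smul]
      have hn1 : n = a • n + b • n := by rw [← add_smul, hab, one_smul]
      conv_lhs => rw [hn1]
      simp only [smul_add, smul_smul]
      abel
  · intro x₀ hx₀ β hβ
    exact mem_of_line hz.2 (left_mem_segment ℝ v z) (right_mem_segment ℝ v z) (hTP hx₀) hβ
  · intro x₀ hx₀ α hα
    exact mem_of_line hy.2 (left_mem_segment ℝ v y) (right_mem_segment ℝ v y) (hTP hx₀) hα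

end Pool.Agent.T9h41.NK
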